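import Mathlib
import Pool.Agent.H21.Rep3

set_option autoImplicit false
open Filter Topology

namespace Pool.Agent.Results.MP_459ac8_an.Exists

/-- `f` (a Taylor coefficient sequence) lies in `H²`. -/
def InH2 (f : ℕ → ℂ) : Prop := Summable fun m => ‖f m‖ ^ 2

/-- The Cauchy kernels `1/(1 - conj (Λ n) z)` (with `m`-th Taylor coefficient `conj (Λ n) ^ m`)
form a representing system in `H²`: the squared `H²` norm of `f` minus the partial sums of a
series in the kernels tends to `0`. -/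
def Representing (Λ : ℕ → ℂ) : Prop :=
  ∀ f : ℕ → ℂ, InH2 f → ∃ c : ℕ → ℂ,
    Tendsto (fun N => ∑' m, ‖f m - ∑ n ∈ Finset.range N, c n * (starRingEnd ℂ) (Λ n) ^ m‖ ^ 2)
      atTop (𝓝 0)

/-- `Λ` has finitely many points in each smaller disc and upper density zero. -/
def DensityZero (Λ : ℕ → ℂ) : Prop :=
  (∀ r : ℝ, r < 1 → (Set.range Λ ∩ Metric.ball 0 r).Finite) ∧
    Tendsto (fun r : ℝ => (1 - r) * ((Set.range Λ ∩ Metric.ball 0 r).ncard : ℝ)) (𝓝[<] 1) (𝓝 0)

theorem result :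
    ∃ Λ : ℕ → ℂ, Function.Injective Λ ∧ (∀ n, ‖Λ n‖ < 1) ∧ Representing Λ ∧ DensityZero Λ := by
  open Pool.Agent.H21.Rep in
  refine ⟨Lam, Lam_inj, fun n => by rw [Lam_norm]; exact R_lt _, fun f hf => ?_,
    fun r hr => finite_ball hr, density⟩
  have h2 : ((2 : ENNReal).toReal) = ((2 : ℕ) : ℝ) := by norm_num
  let F : Pool.Agent.H21.Rep.H2 := ⟨f, memℓp_gen (by simp only [h2, Real.rpow_natCast]; exact hf)⟩
  obtain ⟨c, hc⟩ := Pool.Agent.H21.Rep.represent _ Pool.Agent.H21.Rep.step F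
  refine ⟨c, ?_⟩
  have h3 := ((tendsto_const_nhds (x := F)).sub hc).norm.pow 2
  rw [sub_self, norm_zero, zero_pow two_ne_zero] at h3
  refine h3.congr fun N => ?_
  have h4 := lp.norm_rpow_eq_tsum (p := 2) (by norm_num)
    (F - ∑ n ∈ Finset.range N, c n • Pool.Agent.H21.Rep.kk n)
  simp only [h2, Real.rpow_natCast] at h4
  rw [h4]
  refine tsum_congr fun m => ?_
  rw [lp.coeFn_sub, Pi.sub_apply, Pool.Agent.H21.Rep.sum_apply']
  simp only [Pool.Agent.H21.Rep.kk, Pool.Agent.H21.Rep.K_apply, Pool.Agent.H21.Rep.Lam,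
    Complex.conj_conj]
  rfl

end Pool.Agent.Results.MP_459ac8_an.Exists
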